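import Pool.Agent.helper13.UN.SpecG

set_option autoImplicit false

open NumberField Complex

namespace Pool.Agent.UN

theorem GSA_zero (hGS0 : GS0_stmt) (K : Type) [Field K] [NumberField K] (f : Ideal (𝓞 K)) (F : 𝓞 K → ℂ) (η : K)
    (hf : f ≠ ⊥) (hF : FC f F) (hη : η ∈ Du f) (v : 𝓞 K) (hv : Ideal.span {v} ⊔ f ≠ ⊤) :
    gs f F (η * ((v : 𝓞 K) : K)) = 0 := by
  obtain ⟨P, hP, hle⟩ := Ideal.exists_le_maximal _ hv
  have hfP : f ≤ P := le_trans le_sup_right hle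
  have hvP : v ∈ P := hle (Ideal.mem_sup_left (Ideal.mem_span_singleton_self v))
  obtain ⟨g, hg⟩ := Ideal.dvd_iff_le.mpr hfP
  have hfg : f ≤ g := Ideal.dvd_iff_le.mp ⟨P, by rw [mul_comm]; exact hg⟩
  have hne : f ≠ g := by
    intro h
    have h1 : (1 : Ideal (𝓞 K)) * f = P * f := by
      rw [one_mul]
      rw [← h] at hg
      exact hg
    have h2 : (1 : Ideal (𝓞 K)) = P := mul_right_cancel₀ hf h1
    apply hP.ne_top
    rw [← h2, Ideal.one_eq_top]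
  obtain ⟨x, hx1, hxf, hFx⟩ := hF.prim g (lt_of_le_of_ne hfg hne)
  obtain ⟨-, h2, h3⟩ := hGS0 K f F hf hF
  have hηv : η * ((v : 𝓞 K) : K) ∈ Du f := by
    intro z hz
    obtain ⟨k, hk⟩ := hη (v * z) (f.mul_mem_left v hz)
    refine ⟨k, ?_⟩
    rw [← hk]
    congr 1
    push_cast
    ring
  have hd : η * ((v : 𝓞 K) : K) * ((x : 𝓞 K) : K) - η * ((v : 𝓞 K) : K) ∈ Du (⊤ : Ideal (𝓞 K)) := by
    intro y _
    have hm : v * (x - 1) * y ∈ f := by
      apply Ideal.mul_mem_right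
      rw [hg]
      exact Ideal.mul_mem_mul hvP hx1
    obtain ⟨k, hk⟩ := hη _ hm
    refine ⟨k, ?_⟩
    rw [← hk]
    congr 1
    push_cast
    ring
  have e1 := h2 _ _ hd
  have e2 := h3 _ hηv x hxf
  rw [e1] at e2
  by_contra hc
  have e3 : (1 : ℂ) * gs f F (η * ((v : 𝓞 K) : K)) = (starRingEnd ℂ) (F x) * gs f F (η * ((v : 𝓞 K) : K)) := by
    rw [one_mul]
    exact e2
  have e4 := mul_right_cancel₀ hc e3
  apply hFx
  have e5 := congrArg (starRingEnd ℂ) e4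
  rw [map_one, Complex.conj_conj] at e5
  exact e5.symm

theorem GSA (hGS0 : GS0_stmt) : GSA_stmt := by
  intro K _ _ f F η hf hF hη v
  by_cases hv : Ideal.span {v} ⊔ f = ⊤
  · exact (hGS0 K f F hf hF).2.2 η hη v hv
  · rw [GSA_zero hGS0 K f F η hf hF hη v hv, hF.zero v hv, map_zero, zero_mul]

end Pool.Agent.UN
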