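import Pool.Agent.helper82.UN.SpecP

set_option autoImplicit false

open NumberField Complex MeasureTheory nonZeroDivisors

namespace Pool.Agent.UN

theorem PLB_emb (K : Type) [Field K] [NumberField K] (ι : Type) [Fintype ι]
    (ω : Module.Basis ι ℚ K) (t : ι → ℝ)
    (h : ∀ w : InfinitePlace K, xw (fun i => ω i) 0 t w = 0) (σ : K →+* ℂ) :
    ∑ i, (t i : ℂ) * σ (ω i) = 0 := by
  have h1 := h (InfinitePlace.mk σ)
  unfold xw at h1
  rw [map_zero, add_zero] at h1
  rcases InfinitePlace.embedding_mk_eq σ with h2 | h2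
  · rw [h2] at h1
    exact h1
  · rw [h2] at h1
    have h3 := congrArg (starRingEnd ℂ) h1
    rw [map_sum, map_zero] at h3
    rw [← h3]
    apply Finset.sum_congr rfl
    intro i _
    rw [map_mul, Complex.conj_ofReal, ComplexEmbedding.conjugate_coe_eq, Complex.conj_conj]

theorem PLB_inj (K : Type) [Field K] [NumberField K] (ι : Type) [Fintype ι]
    (ω : Module.Basis ι ℚ K) (t : ι → ℝ)
    (h : ∀ w : InfinitePlace K, xw (fun i => ω i) 0 t w = 0) : t = 0 := by
  classical
  have hcard : Fintype.card ι = Fintype.card (K →ₐ[ℚ] ℂ) := by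
    rw [AlgHom.card, Module.finrank_eq_card_basis ω]
  let e : ι ≃ (K →ₐ[ℚ] ℂ) := Fintype.equivOfCardEq hcard
  have hdet : (Algebra.embeddingsMatrixReindex ℚ ℂ (fun i => ω i) e).det ≠ 0 := by
    intro h0
    have h1 := Algebra.discr_eq_det_embeddingsMatrixReindex_pow_two ℚ ℂ (fun i => ω i) e
    rw [h0] at h1
    have h2 : Algebra.discr ℚ (fun i => ω i) ≠ 0 := Algebra.discr_not_zero_of_basis ℚ ω
    apply h2
    have h3 : algebraMap ℚ ℂ (Algebra.discr ℚ (fun i => ω i)) = algebraMap ℚ ℂ 0 := by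
      rw [h1, map_zero]
      ring
    exact (algebraMap ℚ ℂ).injective h3
  have hv : Matrix.vecMul (fun i => (t i : ℂ)) (Algebra.embeddingsMatrixReindex ℚ ℂ (fun i => ω i) e) = 0 := by
    funext j
    have h4 := PLB_emb K ι ω t h ((e j : K →ₐ[ℚ] ℂ) : K →+* ℂ)
    simp only [Matrix.vecMul, dotProduct, Pi.zero_apply]
    rw [← h4]
    apply Finset.sum_congr rfl
    intro i _
    simp [Algebra.embeddingsMatrixReindex, Algebra.embeddingsMatrix]
  have h5 := Matrix.eq_zero_of_vecMul_eq_zero hdet hv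
  funext i
  have h6 := congrFun h5 i
  simpa using h6

theorem PLB : PLB_stmt := by
  intro K _ _ ι _ ω
  let T : (ι → ℝ) →ₗ[ℝ] (InfinitePlace K → ℂ) :=
    { toFun := fun t => xw (fun i => ω i) 0 t
      map_add' := by
        intro s t
        funext w
        simp only [xw, map_zero, add_zero, Pi.add_apply, Complex.ofReal_add, add_mul,
          Finset.sum_add_distrib]
      map_smul' := by
        intro c t
        funext w
        simp only [xw, map_zero, add_zero, Pi.smul_apply, smul_eq_mul, Complex.ofReal_mul,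
          RingHom.id_apply, Complex.real_smul, Finset.mul_sum, mul_assoc] }
  have hT : ∀ t, T t = xw (fun i => ω i) 0 t := fun _ => rfl
  have hker : LinearMap.ker T = ⊥ := by
    rw [LinearMap.ker_eq_bot']
    intro t ht
    apply PLB_inj K ι ω t
    intro w
    rw [← hT t, ht]
    rfl
  obtain ⟨C, hC, hA⟩ := LinearMap.exists_antilipschitzWith T hker
  have hb : ∀ t : ι → ℝ, ‖t‖ ≤ C * ∑ w : InfinitePlace K, ‖xw (fun i => ω i) 0 t w‖ := by
    intro t
    have h1 := hA.le_mul_dist t 0
    rw [map_zero, dist_zero_right, dist_zero_right] at h1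
    refine h1.trans ?_
    apply mul_le_mul_of_nonneg_left _ C.coe_nonneg
    rw [hT]
    rw [pi_norm_le_iff_of_nonneg (Finset.sum_nonneg fun w _ => norm_nonneg _)]
    intro w
    exact Finset.single_le_sum (f := fun w => ‖xw (fun i => ω i) 0 t w‖) (fun w _ => norm_nonneg _)
      (Finset.mem_univ w)
  have hs : ∀ t : ι → ℝ, ∑ i, |t i| ≤ Fintype.card ι * ‖t‖ := by
    intro t
    have h1 : ∑ i, |t i| ≤ ∑ _i : ι, ‖t‖ := by
      apply Finset.sum_le_sum
      intro i _
      exact norm_le_pi_norm t i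
    rw [Finset.sum_const, nsmul_eq_mul, Finset.card_univ] at h1
    exact h1
  have hC0 : (0 : ℝ) < C := hC
  have hD : (0 : ℝ) < Fintype.card ι * C + 1 := by positivity
  refine ⟨1 / (Fintype.card ι * C + 1), by positivity, ?_⟩
  intro t
  have hS : (0 : ℝ) ≤ ∑ w : InfinitePlace K, ‖xw (fun i => ω i) 0 t w‖ :=
    Finset.sum_nonneg fun w _ => norm_nonneg _
  rw [div_mul_eq_mul_div, one_mul, div_le_iff₀ hD]
  have h1 := hs t
  have h2 := hb t
  have h3 : (Fintype.card ι : ℝ) * ‖t‖ ≤ Fintype.card ι * (C * ∑ w : InfinitePlace K, ‖xw (fun i => ω i) 0 t w‖) :=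
    mul_le_mul_of_nonneg_left h2 (Nat.cast_nonneg _)
  nlinarith

end Pool.Agent.UN
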